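import Pool.Agent.P.MP_832dec_an.Key

open MeasureTheory Set Metric Pool.Agent.P.MP_832dec_an

/-- The stability estimate holds with every exponent `p ≥ 8/5` of the Fraenkel asymmetry. -/
theorem Pool.Agent.Results.MP_832dec_an.BetterExponent.result (p : ℝ) (hp : 8 / 5 ≤ p)
    (β m : ℝ) (hβ : 0 < β) (hm : 0 < m) :
    ∃ C : ℝ, 0 < C ∧ ∀ Ω : Set ℂ, IsOpen Ω → Bornology.IsBounded Ω → LipschitzBoundary Ω →
      volume Ω = ENNReal.ofReal m → ∀ u : ℂ → ℝ, IsRobinSolution Ω β u →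
      ∀ w : ℂ → ℝ, Equimeasurable Ω u w →
        ENNReal.ofReal (C * asym Ω ^ p) ≤
          eLpNorm (discSolution β (radius Ω) - w) ⊤ (volume.restrict (ball 0 (radius Ω))) := by
  have hpi := Real.pi_pos
  set R := √(m / Real.pi) with hRdef
  have hR : 0 < R := by positivity
  set K := 40 * β / R + 7 / R ^ 2 with hK
  have hK0 : 0 < K := by positivity
  refine ⟨(10 ^ 10)⁻¹ ^ (8 / 5 : ℝ) / (400 * K) / 2 ^ (p - 8 / 5), by positivity, ?_⟩
  intro Ω hΩ hb hL hv u hu w hw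
  have hrad : radius Ω = R := by rw [radius, hv, ENNReal.toReal_ofReal hm.le]
  rcases (asym_nonneg Ω).eq_or_lt with h0 | h0
  · rw [← h0, Real.zero_rpow (by linarith), mul_zero, ENNReal.ofReal_zero]
    exact bot_le
  have h2 := asym_le_two hb
  set τ := ((10 ^ 10)⁻¹ * asym Ω) ^ (1 / 5 : ℝ) with hτ
  have hτ0 : 0 < τ := by positivity
  have hτ5 : τ ^ 5 = (10 ^ 10)⁻¹ * asym Ω := by
    rw [hτ, ← Real.rpow_natCast, ← Real.rpow_mul (by positivity)]
    norm_num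
  have hτ8 : τ ^ 8 = (10 ^ 10)⁻¹ ^ (8 / 5 : ℝ) * asym Ω ^ (8 / 5 : ℝ) := by
    rw [hτ, ← Real.rpow_natCast, ← Real.rpow_mul (by positivity),
      ← Real.mul_rpow (by positivity) h0.le]
    norm_num
  have hτ1 : τ ≤ 1 / 2 := le_of_pow_le_pow_left₀ (n := 5) (by norm_num) (by norm_num) (by
    rw [hτ5]
    norm_num
    linarith)
  have h8 : τ ^ 8 ≤ 1 := pow_le_one₀ hτ0.le (by linarith)
  have hle : (10 ^ 10)⁻¹ ^ (8 / 5 : ℝ) / (400 * K) / 2 ^ (p - 8 / 5) * asym Ω ^ p ≤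
      τ ^ 8 / (400 * K) := by
    have a1 : asym Ω ^ p = asym Ω ^ (8 / 5 : ℝ) * asym Ω ^ (p - 8 / 5) := by
      rw [← Real.rpow_add h0]
      norm_num
    have a2 : asym Ω ^ (p - 8 / 5) ≤ 2 ^ (p - 8 / 5) := Real.rpow_le_rpow h0.le h2 (by linarith)
    calc _ ≤ (10 ^ 10)⁻¹ ^ (8 / 5 : ℝ) / (400 * K) / 2 ^ (p - 8 / 5) *
          (asym Ω ^ (8 / 5 : ℝ) * 2 ^ (p - 8 / 5)) := by
          rw [a1]
          gcongr
      _ = _ := by
          rw [hτ8]
          field_simp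
  refine (ENNReal.ofReal_le_ofReal hle).trans (not_lt.mp fun hlt => ?_)
  have hδ : τ ^ 8 / (400 * K) ≤ radius Ω / (2 * β) := by
    rw [hrad, div_le_div_iff₀ (by positivity) (by positivity)]
    have a1 : R * (400 * K) = 16000 * β + 2800 / R := by
      rw [hK]
      field_simp
      ring
    have a2 : 0 < 2800 / R := by positivity
    nlinarith
  have hlow := low_of_eLpNorm hΩ hb hu.choose_spec.choose_spec.1.1.aestronglyMeasurable hw hδ hlt
  have hkey := key hβ hΩ hb hL (hrad ▸ hR) hu hτ0 hτ1 (by positivity) (by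
    rw [hrad, ← hK]
    field_simp) hlow
  rw [hτ5] at hkey
  nlinarith [Real.pi_gt_three]
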